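import Mathlib
import Pool.Agent.V11121.Polyplex.Games

/-!
# An extremal matrix of deficiency 2/73

The 10-dimensional (0,1)-matrix of order 2 whose ones are the coalitions of weight at least `73`
for the weights `34, 31, 16, 13, 13, 13, 10, 6, 4, 4` is extremal and has deficiency `2/73`, which
is not the reciprocal of a positive integer.
-/

namespace Pool.Agent.Results.MP_1f9c83_co.DeficiencyTwo73

open Pool.Agent.V11121.Polyplex

/-- The weights (total `144`). -/
def w : Fin 10 → ℕ := ![34, 31, 16, 13, 13, 13, 10, 6, 4, 4]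

/-- The support of an optimal polyplex. -/
def S : Fin 10 → Fin 10 → Fin 2 :=
  ![![1, 1, 0, 0, 0, 0, 0, 0, 1, 1],
    ![0, 1, 0, 1, 1, 0, 1, 1, 0, 0],
    ![1, 0, 1, 1, 0, 0, 0, 1, 1, 0],
    ![1, 0, 0, 1, 1, 1, 0, 0, 0, 0],
    ![0, 1, 1, 0, 1, 1, 0, 0, 0, 0],
    ![0, 1, 0, 1, 0, 1, 1, 1, 0, 0],
    ![1, 0, 1, 0, 0, 1, 1, 0, 0, 0],
    ![0, 1, 0, 0, 1, 1, 1, 1, 0, 0],
    ![0, 0, 1, 1, 1, 1, 1, 0, 1, 1],
    ![1, 0, 1, 1, 0, 0, 0, 1, 0, 1]]

/-- The values of the optimal polyplex, multiplied by `73`. -/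
def c : Fin 10 → ℕ := ![29, 8, 17, 3, 5, 1, 7, 30, 27, 17]

lemma gap : ∀ α : Fin 10 → Fin 2, 73 ≤ wt w α ∨ wt w α + 73 ≤ 144 := by decide +kernel

/-- **Main theorem.** There is an extremal 10-dimensional (0,1)-matrix of order `2` with deficiency
`2/73`; so the deficiency of an extremal matrix need not be the reciprocal of a positive
integer. -/
theorem result :
    (IsExtremal (game w 73) ∧ IsDeficiency (game w 73) (2 / 73)) ∧
    ∃ (d n : ℕ) (A : Set (Fin d → Fin n)) (δ : ℝ), 2 ≤ d ∧ 1 ≤ n ∧ IsExtremal A ∧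
      IsDeficiency A δ ∧ ∀ m : ℕ, 0 < m → δ ≠ 1 / m := by
  have h1 : IsExtremal (game w 73) := by
    refine game_isExtremal (t := 144) (by decide +kernel) (by norm_num) gap
  have h2 : IsDeficiency (game w 73) (2 / 73) := by
    have h := (game_deficiency (w := w) (q := 73) (t := 144) (N := 73) (S := S) (c := c)
      (by decide +kernel) (by norm_num) (by norm_num) (by decide +kernel) (by decide +kernel)
      (by decide +kernel)).1
    norm_num at h
    exact h
  refine ⟨⟨h1, h2⟩, 10, 2, game w 73, 2 / 73, by norm_num, by norm_num, h1, h2, ?_⟩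
  intro m hm h
  have hm' : (m : ℝ) ≠ 0 := by exact_mod_cast hm.ne'
  rw [div_eq_div_iff (by norm_num) hm'] at h
  have : 2 * m = 1 * 73 := by exact_mod_cast h
  omega

end Pool.Agent.Results.MP_1f9c83_co.DeficiencyTwo73
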